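import Pool.Agent.Helper90.ZD.P1
import Pool.Agent.Helper90.ZD.P2
import Pool.Agent.Helper90.ZD.P3
import Pool.Agent.Helper90.ZD.P4
import Pool.Agent.Helper90.ZD.P5
import Pool.Agent.Helper90.ZD.P6

open Finset

namespace Pool.Agent.Helper71.ZD

open Pool.Agent.Helper90.ZD

theorem ee_add (a b : ℝ) : ee (a + b) = ee a * ee b := by
  unfold ee
  rw [← Complex.exp_add]
  congr 1
  push_cast
  ring

theorem ee_norm (a : ℝ) : ‖ee a‖ = 1 := by
  unfold ee
  have h : (2 * Real.pi * a * Complex.I : ℂ) = ((2 * Real.pi * a : ℝ) : ℂ) * Complex.I := by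
    push_cast
    ring
  rw [h, Complex.norm_exp_ofReal_mul_I]

theorem ee_int (m : ℤ) : ee m = 1 := by
  unfold ee
  rw [Complex.exp_eq_one_iff]
  exact ⟨m, by push_cast; ring⟩

theorem norm_one_add_ee (y : ℝ) : ‖1 + ee y‖ = 2 * |Real.cos (Real.pi * y)| := by
  have h1 : (1 + ee y : ℂ) = Complex.exp ((Real.pi * y : ℝ) * Complex.I)
      * (2 * Real.cos (Real.pi * y) : ℝ) := by
    unfold ee
    have h2 : ((2 * Real.cos (Real.pi * y) : ℝ) : ℂ)
        = Complex.exp ((Real.pi * y : ℝ) * Complex.I)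
          + Complex.exp (-((Real.pi * y : ℝ) * Complex.I)) := by
      push_cast
      rw [Complex.two_cos]
      congr 2
      ring_nf
    rw [h2, mul_add, ← Complex.exp_add, ← Complex.exp_add, add_neg_cancel, Complex.exp_zero,
      add_comm]
    congr 2
    push_cast
    ring
  rw [h1, norm_mul, Complex.norm_exp_ofReal_mul_I, one_mul, Complex.norm_real, Real.norm_eq_abs,
    abs_mul, abs_of_pos (by norm_num : (0 : ℝ) < 2)]

theorem cos_bound (ε y : ℝ) (hε : 0 < ε) (h1 : ε / 2 ≤ y) (h2 : y ≤ 1 - ε / 2) :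
    |Real.cos (Real.pi * y)| ≤ Real.cos (Real.pi * (ε / 2)) := by
  have hpi := Real.pi_pos
  rw [abs_le]
  constructor
  · rw [← Real.cos_pi_sub]
    apply Real.cos_le_cos_of_nonneg_of_le_pi
    · exact mul_nonneg hpi.le (by linarith)
    · nlinarith
    · nlinarith
  · apply Real.cos_le_cos_of_nonneg_of_le_pi
    · positivity
    · nlinarith
    · nlinarith

theorem rho_pow (ε : ℝ) (hε : 0 < ε) (hε' : ε ≤ 1 / 2) (M : ℕ) :
    Real.cos (Real.pi * (ε / 2)) ^ (2 * M) ≤ Real.exp (-(ε ^ 2 * M)) := by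
  have hpi := Real.pi_pos
  have h1 : ε ≤ Real.sin (Real.pi * (ε / 2)) := by
    have h2 := Real.mul_le_sin (x := Real.pi * (ε / 2)) (by positivity) (by nlinarith)
    have h3 : 2 / Real.pi * (Real.pi * (ε / 2)) = ε := by
      field_simp
    linarith
  have h2 : Real.cos (Real.pi * (ε / 2)) ^ 2 ≤ 1 - ε ^ 2 := by
    have h3 := Real.sin_sq_add_cos_sq (Real.pi * (ε / 2))
    nlinarith
  have h3 : 1 - ε ^ 2 ≤ Real.exp (-ε ^ 2) := by
    have := Real.add_one_le_exp (-ε ^ 2)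
    linarith
  calc Real.cos (Real.pi * (ε / 2)) ^ (2 * M) = (Real.cos (Real.pi * (ε / 2)) ^ 2) ^ M := by
        rw [pow_mul]
    _ ≤ (Real.exp (-ε ^ 2)) ^ M := pow_le_pow_left₀ (sq_nonneg _) (h2.trans h3) M
    _ = Real.exp (-(ε ^ 2 * M)) := by
        rw [← Real.exp_nat_mul]
        ring_nf

theorem zero_core {n : ℕ} (hn : 0 < n) (C D M : ℕ) (hC : 0 < C) (hM : 0 < M) (hDC : D ≤ C)
    (ε κ θ δ : ℝ) (hε : 0 < ε) (hε' : ε ≤ 1 / 2) (hκ : 0 < κ) (hκ' : κ ≤ 1 / 2)
    (hD : κ * C ≤ (C : ℝ) - D) (hδ : 0 < δ) (hθ : 0 < θ) (hθ' : θ ≤ 1)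
    (hMδ : 4 * (n : ℝ) ≤ (M * δ) ^ 2) (hθn : 100 ≤ θ * n * κ)
    (hth : 2 * θ * (4 + Real.log (1 / θ)) ≤ ε ^ 2 / 2)
    (hnum : Real.exp (-(ε ^ 2 * M / 2)) * ((C : ℝ) + 1) ^ n
      + Real.exp (ε ^ 2 * M / 2 - κ * C) < 1 / (2 * (M : ℝ) + 1))
    (t : Fin n → ℝ) (hsep : ∀ i j, i ≠ j → δ ≤ ‖ee (t i) - ee (t j)‖) (β : ℝ)
    (p : MvPolynomial (Fin n) ℂ) (hp : p.totalDegree ≤ D)
    (hz : ∀ c ∈ Sig n C, Int.fract (∑ i, t i * c i - β) < ε → pv p c = 0) :
    ∀ c ∈ Sig n C, pv p c = 0 := by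
  classical
  obtain ⟨x, hx1, hxmax⟩ := exists_max hn (pv p) C
  set Mh : ℝ := ‖hval (pv p) C x‖ with hMh
  have hbomb := bomb_le (pv p) C hC Mh hxmax
  -- it is enough to show that the maximum is zero
  suffices hMh0 : Mh = 0 by
    intro c hc
    rw [hMh0] at hbomb
    have h1 : bomb (pv p) C ≤ 0 := by simpa using hbomb
    unfold bomb at h1
    have h2 : ∀ c ∈ Sig n C, 0 ≤ (Nat.multinomial Finset.univ c : ℝ) * ‖pv p c‖ ^ 2 :=
      fun c _ => by positivity
    have h3 := (Finset.sum_eq_zero_iff_of_nonneg h2).mp (le_antisymm h1 (Finset.sum_nonneg h2)) c hc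
    have h4 : (Nat.multinomial Finset.univ c : ℝ) ≠ 0 := by
      exact_mod_cast (Nat.multinomial_pos _ _).ne'
    have h5 := (mul_eq_zero.mp h3).resolve_left h4
    exact norm_eq_zero.mp (pow_eq_zero_iff (two_ne_zero) |>.mp h5)
  by_contra hMne
  have hMpos : 0 < Mh := lt_of_le_of_ne (norm_nonneg _) (Ne.symm hMne)
  obtain ⟨A, hA⟩ := hval_div p hp hDC
  have hdec : ∀ y : Fin n → ℂ, ∑ i, ‖y i‖ ^ 2 = 1 → ‖∑ i, y i‖ ^ 2 ≤ n * κ / 25 →
      ‖hval (pv p) C y‖ ≤ Real.exp (-(κ * C)) * Mh :=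
    fun y hy1 hy2 => decay hn C D hDC κ hκ hκ' hD (hval (pv p) C) A hA
      (fun b x => hval_smul (pv p) C b x) Mh hxmax y hy1 hy2
  -- the exceptional set
  set E : Finset ℤ := (Finset.Icc (-(M : ℤ)) M).filter
    (fun k => k ≠ 0 ∧ (n : ℝ) * κ / 25 < ‖∑ i, ee (t i) ^ k * x i‖ ^ 2) with hE
  have hnR : (0 : ℝ) < n := by exact_mod_cast hn
  have hcardE : (E.card : ℝ) ≤ θ * M := by
    have h1 := sieve hM (fun i => ee (t i)) (fun i => ee_norm _) δ hδ hsep hMδ x
    rw [hx1, mul_one] at h1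
    have h2 : (E.card : ℝ) * ((n : ℝ) * κ / 25) ≤ 4 * M := by
      calc (E.card : ℝ) * ((n : ℝ) * κ / 25) = ∑ _k ∈ E, (n : ℝ) * κ / 25 := by
            rw [Finset.sum_const, nsmul_eq_mul]
        _ ≤ ∑ k ∈ E, ‖∑ i, ee (t i) ^ k * x i‖ ^ 2 := by
            apply Finset.sum_le_sum
            intro k hk
            rw [hE, Finset.mem_filter] at hk
            exact hk.2.2.le
        _ ≤ ∑ k ∈ Finset.Icc (-(M : ℤ)) M, ‖∑ i, ee (t i) ^ k * x i‖ ^ 2 := by
            apply Finset.sum_le_sum_of_subset_of_nonneg (Finset.filter_subset _ _)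
            intro k _ _
            positivity
        _ ≤ 4 * M := h1
    have hMR : (0 : ℝ) < M := by exact_mod_cast hM
    have h3 : (E.card : ℝ) * ((n : ℝ) * κ / 25) ≤ (θ * M) * ((n : ℝ) * κ / 25) := by
      refine h2.trans ?_
      nlinarith
    exact le_of_mul_le_mul_right h3 (by positivity)
  have hE1 : ∀ l ∈ E, l ≠ 0 := fun l hl => by
    rw [hE, Finset.mem_filter] at hl
    exact hl.2.1
  have hE2 : ∀ l ∈ E, l ≠ 0 ∧ |l| ≤ M := fun l hl => by
    refine ⟨hE1 l hl, ?_⟩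
    rw [hE, Finset.mem_filter, Finset.mem_Icc] at hl
    exact abs_le.mpr hl.1
  have hprod : ∏ l ∈ E, (1 + 3 * (M : ℝ) / |(l : ℝ)|) ≤ Real.exp (ε ^ 2 * M / 2) := by
    refine (prod_le M E hE2 θ hθ hθ' hcardE).trans (Real.exp_le_exp.mpr ?_)
    have hMR : (0 : ℝ) ≤ M := Nat.cast_nonneg M
    have := mul_le_mul_of_nonneg_right hth hMR
    linarith
  have hsumtc : ∑ k ∈ Finset.Icc (-(M : ℤ)) M, |tc M E k| ≤ Real.exp (ε ^ 2 * M / 2) := by
    refine (test_sum M E hE1).trans (le_trans ?_ hprod)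
    apply Finset.prod_le_prod
    · intro l _
      positivity
    · intro l _
      have h1 : (M : ℝ) / |(l : ℝ)| ≤ 3 * (M : ℝ) / |(l : ℝ)| := by
        gcongr
        have : (0 : ℝ) ≤ M := Nat.cast_nonneg M
        linarith
      linarith
  -- the test function
  set φ0 : ℝ := β + ε / 2 with hφ0
  set q : (Fin n → ℕ) → ℂ := fun c =>
    ∑ k ∈ Finset.Icc (-(M : ℤ)) M, (tc M E k : ℂ) * ee (∑ i, t i * c i - φ0) ^ k with hq
  have hqsmall : ∀ c ∈ Sig n C, pv p c ≠ 0 → ‖q c‖ ≤ Real.exp (-(ε ^ 2 * M / 2)) := by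
    intro c hc hne
    have h1 : ε ≤ Int.fract (∑ i, t i * c i - β) := by
      by_contra hcon
      exact hne (hz c hc (not_le.mp hcon))
    have h2 := Int.fract_lt_one (∑ i, t i * (c i : ℝ) - β)
    have h3 : ee (∑ i, t i * c i - φ0)
        = ee (Int.fract (∑ i, t i * (c i : ℝ) - β) - ε / 2) := by
      have h4 : ∑ i, t i * (c i : ℝ) - φ0 = (⌊∑ i, t i * (c i : ℝ) - β⌋ : ℝ)
          + (Int.fract (∑ i, t i * (c i : ℝ) - β) - ε / 2) := by
        have := Int.floor_add_fract (∑ i, t i * (c i : ℝ) - β)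
        rw [hφ0]
        linarith
      rw [h4, ee_add, ee_int, one_mul]
    have h5 : ‖1 + ee (∑ i, t i * c i - φ0)‖ ≤ 2 * Real.cos (Real.pi * (ε / 2)) := by
      rw [h3, norm_one_add_ee]
      have := cos_bound ε (Int.fract (∑ i, t i * (c i : ℝ) - β) - ε / 2) hε (by linarith)
        (by linarith)
      linarith
    have hrho : 1 / 2 ≤ Real.cos (Real.pi * (ε / 2)) := by
      rw [← Real.cos_pi_div_three]
      have hpi := Real.pi_pos
      apply Real.cos_le_cos_of_nonneg_of_le_pi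
      · positivity
      · linarith
      · nlinarith
    have h6 := test_small M E hE1 (Real.cos (Real.pi * (ε / 2))) hrho
      (ee (∑ i, t i * c i - φ0)) (ee_norm _) h5
    refine h6.trans ?_
    calc Real.cos (Real.pi * (ε / 2)) ^ (2 * M) * ∏ l ∈ E, (1 + 3 * (M : ℝ) / |(l : ℝ)|)
        ≤ Real.exp (-(ε ^ 2 * M)) * Real.exp (ε ^ 2 * M / 2) :=
          mul_le_mul (rho_pow ε hε hε' M) hprod (Finset.prod_nonneg fun l _ => by positivity)
            (Real.exp_pos _).le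
      _ = Real.exp (-(ε ^ 2 * M / 2)) := by
          rw [← Real.exp_add]
          ring_nf
  have hmain1 : ‖hval (fun c => pv p c * q c) C x‖
      ≤ Real.exp (-(ε ^ 2 * M / 2)) * (((C : ℝ) + 1) ^ n * Mh) := by
    refine (hval_le (pv p) C x hx1 q (Real.exp (-(ε ^ 2 * M / 2))) (Real.exp_pos _).le
      hqsmall).trans ?_
    apply mul_le_mul_of_nonneg_left _ (Real.exp_pos _).le
    apply Real.sqrt_le_iff.mpr
    refine ⟨by positivity, hbomb.trans (le_of_eq ?_)⟩
    rw [mul_pow, ← pow_mul, mul_comm n 2]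
  -- expansion of the test sum
  have hexpand : hval (fun c => pv p c * q c) C x
      = ∑ k ∈ Finset.Icc (-(M : ℤ)) M, (tc M E k : ℂ) * ee (-φ0) ^ k
        * hval (pv p) C (fun i => ee (t i) ^ k * x i) := by
    have h1 : ∀ k ∈ Finset.Icc (-(M : ℤ)) M, (tc M E k : ℂ) * ee (-φ0) ^ k
        * hval (pv p) C (fun i => ee (t i) ^ k * x i)
        = ∑ c ∈ Sig n C, (Nat.multinomial Finset.univ c : ℂ) * (pv p c
          * ((tc M E k : ℂ) * ee (∑ i, t i * c i - φ0) ^ k)) * ∏ i, x i ^ c i := by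
      intro k _
      rw [hval_twist]
      unfold hval
      rw [Finset.mul_sum]
      apply Finset.sum_congr rfl
      intro c _
      rw [sub_eq_add_neg, ee_add, mul_zpow]
      ring
    rw [Finset.sum_congr rfl h1, Finset.sum_comm]
    unfold hval
    apply Finset.sum_congr rfl
    intro c _
    rw [hq]
    simp only
    rw [← Finset.sum_mul, ← Finset.mul_sum, ← Finset.mul_sum]
  have h0mem : (0 : ℤ) ∈ Finset.Icc (-(M : ℤ)) M := by
    rw [Finset.mem_Icc]
    constructor <;> omega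
  have hnormg : ∀ k : ℤ, ∑ i, ‖ee (t i) ^ k * x i‖ ^ 2 = 1 := by
    intro k
    rw [← hx1]
    apply Finset.sum_congr rfl
    intro i _
    rw [norm_mul, norm_zpow, ee_norm, one_zpow, one_mul]
  rw [← Finset.add_sum_erase _ _ h0mem] at hexpand
  have hx0 : (fun i => ee (t i) ^ (0 : ℤ) * x i) = x := by
    funext i
    rw [zpow_zero, one_mul]
  rw [hx0, zpow_zero, mul_one] at hexpand
  have hrest : ‖∑ k ∈ (Finset.Icc (-(M : ℤ)) M).erase 0, (tc M E k : ℂ) * ee (-φ0) ^ k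
        * hval (pv p) C (fun i => ee (t i) ^ k * x i)‖
      ≤ Real.exp (ε ^ 2 * M / 2) * (Real.exp (-(κ * C)) * Mh) := by
    calc ‖∑ k ∈ (Finset.Icc (-(M : ℤ)) M).erase 0, (tc M E k : ℂ) * ee (-φ0) ^ k
          * hval (pv p) C (fun i => ee (t i) ^ k * x i)‖
        ≤ ∑ k ∈ (Finset.Icc (-(M : ℤ)) M).erase 0, |tc M E k| * (Real.exp (-(κ * C)) * Mh) := by
          refine (norm_sum_le _ _).trans (Finset.sum_le_sum fun k hk => ?_)
          rw [Finset.mem_erase] at hk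
          rw [norm_mul, norm_mul, norm_zpow, ee_norm, one_zpow, mul_one, Complex.norm_real,
            Real.norm_eq_abs]
          by_cases hkE : k ∈ E
          · rw [tc_mem M E k hkE hk.1, abs_zero, zero_mul, zero_mul]
          · apply mul_le_mul_of_nonneg_left _ (abs_nonneg _)
            apply hdec _ (hnormg k)
            rw [hE, Finset.mem_filter] at hkE
            push Not at hkE
            exact hkE hk.2 hk.1
      _ = (∑ k ∈ (Finset.Icc (-(M : ℤ)) M).erase 0, |tc M E k|)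
          * (Real.exp (-(κ * C)) * Mh) := by rw [Finset.sum_mul]
      _ ≤ (∑ k ∈ Finset.Icc (-(M : ℤ)) M, |tc M E k|) * (Real.exp (-(κ * C)) * Mh) := by
          apply mul_le_mul_of_nonneg_right _ (by positivity)
          exact Finset.sum_le_sum_of_subset_of_nonneg (Finset.erase_subset _ _)
            fun k _ _ => abs_nonneg _
      _ ≤ Real.exp (ε ^ 2 * M / 2) * (Real.exp (-(κ * C)) * Mh) :=
          mul_le_mul_of_nonneg_right hsumtc (by positivity)
  have hfin : tc M E 0 * Mh ≤ Real.exp (-(ε ^ 2 * M / 2)) * (((C : ℝ) + 1) ^ n * Mh)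
      + Real.exp (ε ^ 2 * M / 2) * (Real.exp (-(κ * C)) * Mh) := by
    have h1 : (tc M E 0 : ℂ) * hval (pv p) C x
        = hval (fun c => pv p c * q c) C x
          - ∑ k ∈ (Finset.Icc (-(M : ℤ)) M).erase 0, (tc M E k : ℂ) * ee (-φ0) ^ k
            * hval (pv p) C (fun i => ee (t i) ^ k * x i) := by
      rw [hexpand]
      ring
    have h2 : ‖(tc M E 0 : ℂ) * hval (pv p) C x‖ = |tc M E 0| * Mh := by
      rw [norm_mul, Complex.norm_real, Real.norm_eq_abs]
    calc tc M E 0 * Mh ≤ |tc M E 0| * Mh :=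
          mul_le_mul_of_nonneg_right (le_abs_self _) hMpos.le
      _ = ‖(tc M E 0 : ℂ) * hval (pv p) C x‖ := h2.symm
      _ ≤ _ := by
          rw [h1]
          exact (norm_sub_le _ _).trans (add_le_add hmain1 hrest)
  have htc0 := tc_zero M E
  have h1 : 1 / (2 * (M : ℝ) + 1) * Mh ≤ (Real.exp (-(ε ^ 2 * M / 2)) * ((C : ℝ) + 1) ^ n
      + Real.exp (ε ^ 2 * M / 2 - κ * C)) * Mh := by
    calc 1 / (2 * (M : ℝ) + 1) * Mh ≤ tc M E 0 * Mh := mul_le_mul_of_nonneg_right htc0 hMpos.le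
      _ ≤ _ := hfin
      _ = _ := by
          rw [sub_eq_add_neg, Real.exp_add]
          ring
  have h2 := le_of_mul_le_mul_right h1 hMpos
  linarith

end Pool.Agent.Helper71.ZD
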